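import Pool.Agent.X256.ZP.Wreath

/-!
# The Fitting series and wreath products
-/

open scoped BigOperators Classical commutatorElement

noncomputable section

namespace Pool.Agent.X256.ZP

/-- the Fitting subgroup: the join of the nilpotent normal subgroups -/
def fitting (G : Type) [Group G] : Subgroup G :=
  sSup {N : Subgroup G | N.Normal ∧ Group.IsNilpotent N}

instance fitting_normal (G : Type) [Group G] : (fitting G).Normal := by
  constructor
  intro x hx g
  have h1 : fitting G ≤ (fitting G).comap (MulAut.conj g).toMonoidHom := by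
    refine sSup_le ?_
    intro N hN y hy
    have h2 : N ≤ fitting G := le_sSup hN
    exact h2 (hN.1.conj_mem y hy g)
  exact h1 hx

/-- the upper Fitting series -/
def fitSeries (G : Type) [Group G] : ℕ → {N : Subgroup G // N.Normal}
  | 0 => ⟨⊥, inferInstance⟩
  | i + 1 =>
    haveI := (fitSeries G i).2
    ⟨(fitting (G ⧸ (fitSeries G i).1)).comap (QuotientGroup.mk' (fitSeries G i).1), inferInstance⟩

/-- `G` has Fitting height `h`: `h` is the least index with `F_h = G` -/
def HasFittingHeight (G : Type) [Group G] (h : ℕ) : Prop :=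
  IsLeast {m : ℕ | (fitSeries G m).1 = ⊤} h

lemma fitting_le_comap {G H : Type} [Group G] [Group H] (e : G ≃* H) :
    fitting G ≤ (fitting H).comap e.toMonoidHom := by
  refine sSup_le ?_
  rintro N ⟨h1, h2⟩
  rw [← Subgroup.map_le_iff_le_comap]
  refine le_sSup ⟨?_, ?_⟩
  · exact h1.map _ e.surjective
  · have e2 : N ≃* N.map e.toMonoidHom := N.equivMapOfInjective e.toMonoidHom e.injective
    exact Group.nilpotent_of_mulEquiv e2

lemma fitting_comap {G H : Type} [Group G] [Group H] (e : G ≃* H) :
    (fitting H).comap e.toMonoidHom = fitting G := by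
  apply le_antisymm
  · intro x hx
    have h1 := fitting_le_comap e.symm hx
    simpa using h1
  · exact fitting_le_comap e

lemma comap_fitting_quot {G Q : Type} [Group G] [Group Q] (q : G →* Q)
    (hq : Function.Surjective q) (N : Subgroup G) [hN : N.Normal] (hker : q.ker = N) :
    (fitting (G ⧸ N)).comap (QuotientGroup.mk' N) = (fitting Q).comap q := by
  subst hker
  let e : G ⧸ q.ker ≃* Q := QuotientGroup.quotientKerEquivOfSurjective q hq
  have h1 := fitting_comap e
  rw [← h1, Subgroup.comap_comap]
  congr 1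

/-- the Fitting series of an extension whose kernel is the Fitting subgroup -/
lemma fitSeries_ext {G Q : Type} [Group G] [Group Q] (q : G →* Q) (hq : Function.Surjective q)
    (hker : q.ker = fitting G) (i : ℕ) :
    (fitSeries G (i + 1)).1 = ((fitSeries Q i).1).comap q := by
  induction i with
  | zero =>
    change (fitting (G ⧸ (⊥ : Subgroup G))).comap (QuotientGroup.mk' (⊥ : Subgroup G)) =
      (⊥ : Subgroup Q).comap q
    rw [comap_fitting_quot (MonoidHom.id G) Function.surjective_id ⊥
      ((MonoidHom.ker_eq_bot_iff _).mpr Function.injective_id), Subgroup.comap_id,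
      MonoidHom.comap_bot, hker]
  | succ i ih =>
    haveI := (fitSeries Q i).2
    haveI := (fitSeries G (i + 1)).2
    change (fitting (G ⧸ (fitSeries G (i + 1)).1)).comap
      (QuotientGroup.mk' (fitSeries G (i + 1)).1) =
      ((fitting (Q ⧸ (fitSeries Q i).1)).comap (QuotientGroup.mk' (fitSeries Q i).1)).comap q
    rw [comap_fitting_quot ((QuotientGroup.mk' (fitSeries Q i).1).comp q)
      ((QuotientGroup.mk'_surjective _).comp hq) _ ?_, Subgroup.comap_comap]
    rw [ih]
    ext x
    simp [MonoidHom.mem_ker, Subgroup.mem_comap]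

lemma height_ext {G Q : Type} [Group G] [Group Q] [Nontrivial G] (q : G →* Q)
    (hq : Function.Surjective q) (hker : q.ker = fitting G) {h : ℕ} (hQ : HasFittingHeight Q h) :
    HasFittingHeight G (h + 1) := by
  have key : ∀ i, (fitSeries G (i + 1)).1 = ⊤ ↔ (fitSeries Q i).1 = ⊤ := by
    intro i
    rw [fitSeries_ext q hq hker]
    constructor
    · intro h1
      rw [eq_top_iff]
      intro y _
      obtain ⟨x, rfl⟩ := hq y
      have : x ∈ (fitSeries Q i).1.comap q := by rw [h1]; trivial
      exact this
    · intro h1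
      rw [h1, Subgroup.comap_top]
  constructor
  · exact (key h).mpr hQ.1
  · intro m hm
    rcases m with _ | m
    · exfalso
      have h1 : (⊥ : Subgroup G) = ⊤ := hm
      exact bot_ne_top h1
    · have := hQ.2 ((key m).mp hm)
      omega

section wreath

variable {p : ℕ} [hp : Fact p.Prime] {K : Type} [Group K] [Fintype K]

/-- the projection of the wreath product -/
def pr : W p K →* K := RegularWreathProduct.rightHom

lemma pr_apply (w : W p K) : pr w = w.right := rfl

lemma pr_surj : Function.Surjective (pr : W p K →* K) := fun k => ⟨RegularWreathProduct.inl k, rfl⟩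

lemma mem_ker_pr {w : W p K} : w ∈ (pr : W p K →* K).ker ↔ ∃ g, w = el g := by
  rw [MonoidHom.mem_ker]
  constructor
  · intro h
    exact eq_el_of_right h
  · rintro ⟨g, rfl⟩
    rfl

lemma ker_comm : ∀ a b : (pr : W p K →* K).ker, a * b = b * a := by
  rintro ⟨a, ha⟩ ⟨b, hb⟩
  obtain ⟨g, rfl⟩ := mem_ker_pr.mp ha
  obtain ⟨h, rfl⟩ := mem_ker_pr.mp hb
  apply Subtype.ext
  change el g * el h = el h * el g
  rw [← el_add, ← el_add, add_comm]

lemma ker_nilp : Group.IsNilpotent (pr : W p K →* K).ker := by
  letI : CommGroup (pr : W p K →* K).ker :=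
    { (inferInstance : Group (pr : W p K →* K).ker) with mul_comm := ker_comm }
  exact CommGroup.isNilpotent

/-- a nilpotent normal subgroup lies in the base group when `p` does not divide `|K|` -/
lemma nilp_le (hK : ¬ p ∣ Fintype.card K) (N : Subgroup (W p K)) (hN : N.Normal)
    (hnil : Group.IsNilpotent N) : N ≤ (pr : W p K →* K).ker := by
  intro x hx
  rw [MonoidHom.mem_ker, pr_apply]
  set y := x.right with hy
  -- iterated commutators
  let A : Module.End (ZMod p) (K → ZMod p) := act y
  have hcom : ∀ g : K → ZMod p, x * el g * x⁻¹ * (el g)⁻¹ = el ((A - 1) g) := by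
    intro g
    rw [el_conj, ← el_neg, ← el_add, LinearMap.sub_apply, sub_eq_add_neg]
    rfl
  obtain ⟨c, hc⟩ := (Subgroup.isNilpotent_iff_lowerCentralSeries N).mp hnil
  have hiter : ∀ (k : ℕ) (g : K → ZMod p),
      el (((A - 1) ^ (k + 1)) g) ∈ N.lowerCentralSeries k := by
    intro k
    induction k with
    | zero =>
      intro g
      rw [Subgroup.lowerCentralSeries_zero, zero_add, pow_one, ← hcom]
      have h1 : x * el g * x⁻¹ * (el g)⁻¹ = x * (el g * x⁻¹ * (el g)⁻¹) := by group
      rw [h1]
      exact N.mul_mem hx (hN.conj_mem _ (N.inv_mem hx) _)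
    | succ k ih =>
      intro g
      have h1 : el (((A - 1) ^ (k + 1 + 1)) g) = ⁅x, el (((A - 1) ^ (k + 1)) g)⁆ := by
        rw [commutatorElement_def, hcom, pow_succ' _ (k + 1)]
        rfl
      rw [h1, Subgroup.lowerCentralSeries_succ, ← commutatorElement_inv]
      exact Subgroup.inv_mem _ (Subgroup.commutator_mem_commutator (ih g) hx)
  have hA : (A - 1) ^ (c + 1) = 0 := by
    apply LinearMap.ext
    intro g
    have h1 := hiter c g
    rw [hc, Subgroup.mem_bot, ← el_zero] at h1
    rw [LinearMap.zero_apply]
    exact el_inj h1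
  have hpow : ∀ m : ℕ, A ^ m = act (y ^ m) := by
    intro m
    induction m with
    | zero =>
      apply LinearMap.ext
      intro g
      rw [pow_zero, pow_zero, act_one]
      rfl
    | succ m ih =>
      apply LinearMap.ext
      intro g
      rw [pow_succ, pow_succ, ih, ← act_mul]
      rfl
  have hnt : Nontrivial (K → ZMod p) := inferInstance
  haveI : CharP (Module.End (ZMod p) (K → ZMod p)) p :=
    charP_of_injective_algebraMap (algebraMap (ZMod p) (Module.End (ZMod p) (K → ZMod p))).injective p
  have h2 : (A - 1) ^ (p ^ (c + 1)) = 0 := by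
    have hle : c + 1 ≤ p ^ (c + 1) := (Nat.lt_pow_self hp.out.one_lt).le
    obtain ⟨d, hd⟩ := Nat.exists_eq_add_of_le hle
    rw [hd, pow_add, hA, zero_mul]
  have h3 : A ^ (p ^ (c + 1)) = 1 := by
    have h4 := sub_pow_char_pow_of_commute (p := p) (n := c + 1) (Commute.one_right A)
    rw [h2, one_pow] at h4
    exact (sub_eq_zero.mp h4.symm)
  rw [hpow] at h3
  have h5 : y ^ (p ^ (c + 1)) = 1 := by
    have h6 := congrFun (DFunLike.congr_fun h3 (Pi.single 1 1)) (y ^ (p ^ (c + 1)))
    rw [act_apply, inv_mul_cancel, Module.End.one_apply, Pi.single_eq_same] at h6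
    by_contra h7
    rw [Pi.single_eq_of_ne h7] at h6
    exact one_ne_zero h6
  have h7 : orderOf y ∣ p ^ (c + 1) := orderOf_dvd_of_pow_eq_one h5
  have h8 : orderOf y ∣ Fintype.card K := orderOf_dvd_card
  have h9 : Nat.Coprime (p ^ (c + 1)) (Fintype.card K) :=
    Nat.Coprime.pow_left _ ((Nat.Prime.coprime_iff_not_dvd hp.out).mpr hK)
  have h10 : orderOf y ∣ 1 := by
    rw [← h9]
    exact Nat.dvd_gcd h7 h8
  exact orderOf_eq_one_iff.mp (Nat.dvd_one.mp h10)

lemma ker_eq_fitting (hK : ¬ p ∣ Fintype.card K) :
    (pr : W p K →* K).ker = fitting (W p K) := by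
  apply le_antisymm
  · exact le_sSup ⟨inferInstance, ker_nilp⟩
  · exact sSup_le fun N hN => nilp_le hK N hN.1 hN.2

instance : Nontrivial (W p K) := by
  refine ⟨el (fun _ => 1), 1, ?_⟩
  intro h
  rw [← el_zero] at h
  have := congrFun (el_inj h) 1
  exact one_ne_zero this

/-- the Fitting height of the wreath product -/
theorem height_wreath (hK : ¬ p ∣ Fintype.card K) {h : ℕ} (hh : HasFittingHeight K h) :
    HasFittingHeight (W p K) (h + 1) :=
  height_ext pr pr_surj (ker_eq_fitting hK) hh

lemma solvable_wreath [hs : Group.IsSolvable K] : Group.IsSolvable (W p K) := by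
  have h1 : Group.IsSolvable (pr : W p K →* K).ker := isSolvable_of_comm ker_comm
  exact solvable_of_ker_le_range (pr : W p K →* K).ker.subtype (pr : W p K →* K)
    (by rw [Subgroup.range_subtype])

end wreath

end Pool.Agent.X256.ZP
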