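import Pool.Agent.X256.ZP.Wreath

/-!
# Counting conjugacy classes of `C_p ≀ K`
-/

open scoped BigOperators Classical
open Representation Pool.Agent.Helper884.IC Pool.Agent.X256.CT Pool.Agent.X256.SC

noncomputable section

namespace Pool.Agent.X256.ZP

variable {p : ℕ} [hp : Fact p.Prime] {K : Type} [Group K] [Fintype K]

/-- the commuting pairs over a pair of elements of `K` -/
def CP (p : ℕ) (x y : K) : Type :=
  {q : (K → Multiplicative (ZMod p)) × (K → Multiplicative (ZMod p)) //
    Commute (⟨q.1, x⟩ : W p K) ⟨q.2, y⟩}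

instance (x y : K) : Finite (CP p x y) := by unfold CP; infer_instance

lemma card_base : Nat.card (K → Multiplicative (ZMod p)) = p ^ Fintype.card K := by
  rw [Nat.card_fun]
  simp [Nat.card_eq_fintype_card, ZMod.card]

lemma card_restrict (z : K) :
    Nat.card ({t : K // t ≠ z} → Multiplicative (ZMod p)) = p ^ (Fintype.card K - 1) := by
  rw [Nat.card_fun]
  have h1 : Nat.card {t : K // t ≠ z} = Fintype.card K - 1 := by
    rw [Nat.card_eq_fintype_card, Fintype.card_subtype_compl, Fintype.card_subtype_eq]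
  rw [h1]
  simp [Nat.card_eq_fintype_card, ZMod.card]

lemma card_CP_le {x : K} (hx : x ≠ 1) (y : K) :
    Nat.card (CP p x y) ≤ p ^ Fintype.card K * p ^ (Fintype.card K - 1) := by
  have h1 : Nat.card ((K → Multiplicative (ZMod p)) ×
      ({t : K // t ≠ x⁻¹} → Multiplicative (ZMod p))) =
      p ^ Fintype.card K * p ^ (Fintype.card K - 1) := by
    rw [Nat.card_prod, card_base, card_restrict]
  rw [← h1]
  refine Nat.card_le_card_of_injective
    (fun q => (q.1.1, fun t : {t : K // t ≠ x⁻¹} => q.1.2 t)) ?_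
  rintro ⟨⟨f, g⟩, hq⟩ ⟨⟨f', g'⟩, hq'⟩ h
  simp only [Prod.mk.injEq] at h
  obtain ⟨h2, h3⟩ := h
  subst h2
  have key : ∀ (g : K → Multiplicative (ZMod p)) (_ : Commute (⟨f, x⟩ : W p K) ⟨g, y⟩),
      g x⁻¹ = (f 1)⁻¹ * (g 1 * f (y⁻¹)) := by
    intro g hg
    have h4 := congrFun (congrArg RegularWreathProduct.left hg) 1
    simp only [RegularWreathProduct.mul_left, Pi.mul_apply, mul_one] at h4
    rw [← h4, inv_mul_cancel_left]
  have hg : g = g' := by
    funext t
    by_cases ht : t = x⁻¹
    · subst ht
      rw [key g hq, key g' hq']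
      have h1ne : (1 : K) ≠ x⁻¹ := by
        intro h
        apply hx
        rw [← inv_inv x, ← h, inv_one]
      have := congrFun h3 ⟨1, h1ne⟩
      simp only at this
      rw [this]
    · exact congrFun h3 ⟨t, ht⟩
  subst hg
  rfl

lemma card_CP_swap (x y : K) : Nat.card (CP p x y) = Nat.card (CP p y x) := by
  refine Nat.card_congr ?_
  exact {
    toFun := fun q => ⟨(q.1.2, q.1.1), q.2.symm⟩
    invFun := fun q => ⟨(q.1.2, q.1.1), q.2.symm⟩
    left_inv := fun q => rfl
    right_inv := fun q => rfl }

lemma card_CP_le_one : Nat.card (CP p (1 : K) 1) ≤ p ^ Fintype.card K * p ^ Fintype.card K := by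
  have h1 : Nat.card ((K → Multiplicative (ZMod p)) × (K → Multiplicative (ZMod p))) =
      p ^ Fintype.card K * p ^ Fintype.card K := by
    rw [Nat.card_prod, card_base]
  rw [← h1]
  exact Nat.card_le_card_of_injective (fun q => q.1) Subtype.val_injective

lemma comm_pairs : Nat.card {q : W p K × W p K // Commute q.1 q.2} =
    ∑ xy : K × K, Nat.card (CP p xy.1 xy.2) := by
  rw [← Nat.card_sigma]
  refine Nat.card_congr ?_
  exact {
    toFun := fun q => ⟨(q.1.1.right, q.1.2.right), ⟨(q.1.1.left, q.1.2.left), q.2⟩⟩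
    invFun := fun s => ⟨(⟨s.2.1.1, s.1.1⟩, ⟨s.2.1.2, s.1.2⟩), s.2.2⟩
    left_inv := fun q => rfl
    right_inv := fun q => rfl }

/-- upper bound for the class number of the wreath product -/
theorem class_number_le :
    Nat.card (ConjClasses (W p K)) * Fintype.card K * p ≤
      p ^ Fintype.card K * (p + Fintype.card K ^ 2) := by
  set n := Fintype.card K with hn
  have hnpos : 0 < n := Fintype.card_pos
  have hppos : 0 < p := hp.out.pos
  have h1 := card_comm_eq_card_conjClasses_mul_card (W p K)
  have hW : Nat.card (W p K) = p ^ n * n := by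
    rw [RegularWreathProduct.card]
    simp [Nat.card_eq_fintype_card, ZMod.card, hn]
  rw [comm_pairs, hW] at h1
  have h2 : ∑ xy : K × K, Nat.card (CP p xy.1 xy.2) ≤
      ∑ xy : K × K, (if xy = 1 then p ^ n * p ^ n else p ^ n * p ^ (n - 1)) := by
    refine Finset.sum_le_sum fun xy _ => ?_
    by_cases h : xy = 1
    · subst h
      rw [if_pos rfl]
      exact card_CP_le_one
    · rw [if_neg h]
      by_cases hx : xy.1 = 1
      · have hy : xy.2 ≠ 1 := fun hy => h (Prod.ext hx hy)
        rw [card_CP_swap]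
        exact card_CP_le hy _
      · exact card_CP_le hx _
  have h3 : ∑ xy : K × K, (if xy = 1 then p ^ n * p ^ n else p ^ n * p ^ (n - 1)) ≤
      p ^ n * p ^ n + n ^ 2 * (p ^ n * p ^ (n - 1)) := by
    have h4 : ∀ xy : K × K, (if xy = 1 then p ^ n * p ^ n else p ^ n * p ^ (n - 1)) ≤
        (if xy = 1 then p ^ n * p ^ n else 0) + p ^ n * p ^ (n - 1) := by
      intro xy
      split_ifs <;> omega
    refine (Finset.sum_le_sum fun xy _ => h4 xy).trans ?_
    rw [Finset.sum_add_distrib, Finset.sum_ite_eq' Finset.univ (1 : K × K), if_pos (Finset.mem_univ _),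
      Finset.sum_const, Finset.card_univ, Fintype.card_prod, smul_eq_mul, ← hn]
    apply le_of_eq
    ring
  rw [h1] at h2
  have h5 := h2.trans h3
  have hpn : p ^ (n - 1) * p = p ^ n := by
    rw [← pow_succ, Nat.sub_add_cancel hnpos]
  have hPpos : 0 < p ^ n := pow_pos hppos n
  have h6 : (p ^ n) * (Nat.card (ConjClasses (W p K)) * n * p) ≤
      (p ^ n) * (p ^ n * (p + n ^ 2)) := by
    calc (p ^ n) * (Nat.card (ConjClasses (W p K)) * n * p) =
        (Nat.card (ConjClasses (W p K)) * (p ^ n * n)) * p := by ring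
      _ ≤ (p ^ n * p ^ n + n ^ 2 * (p ^ n * p ^ (n - 1))) * p := Nat.mul_le_mul_right _ h5
      _ = p ^ n * p ^ n * p + n ^ 2 * p ^ n * (p ^ (n - 1) * p) := by ring
      _ = (p ^ n) * (p ^ n * (p + n ^ 2)) := by rw [hpn]; ring
  exact Nat.le_of_mul_le_mul_left h6 hPpos

/-- the classes contained in the base group -/
def CV (p : ℕ) [Fact p.Prime] (K : Type) [Group K] [Fintype K] : Finset (ConjClasses (W p K)) :=
  Finset.univ.image (fun g : K → ZMod p => ConjClasses.mk (el g))

theorem CV_card : p ^ Fintype.card K ≤ Fintype.card K * (CV p K).card := by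
  have h1 := Finset.card_le_mul_card_image
    (f := fun g : K → ZMod p => ConjClasses.mk (el g)) (Finset.univ : Finset (K → ZMod p))
    (Fintype.card K) (by
      intro C hC
      simp only [Finset.mem_image, Finset.mem_univ, true_and] at hC
      obtain ⟨g0, rfl⟩ := hC
      have h2 : Finset.univ.filter (fun g : K → ZMod p =>
          ConjClasses.mk (el g) = ConjClasses.mk (el g0)) ⊆
          Finset.univ.image (fun z : K => act z g0) := by
        intro g hg
        have h3 := (Finset.mem_filter.mp hg).2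
        rw [ConjClasses.mk_eq_mk_iff_isConj, isConj_comm, isConj_iff] at h3
        obtain ⟨w, hw⟩ := h3
        rw [el_conj] at hw
        exact Finset.mem_image.mpr ⟨w.right, Finset.mem_univ _, el_inj hw⟩
      exact (Finset.card_le_card h2).trans (Finset.card_image_le.trans (le_of_eq Finset.card_univ)))
  rw [Finset.card_univ, Fintype.card_fun, ZMod.card] at h1
  exact h1

end Pool.Agent.X256.ZP
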