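import Mathlib

/-!
# Short sums of `p`-th roots of unity do not vanish
-/

open scoped BigOperators Classical

noncomputable section

namespace Pool.Agent.X256.ZP

lemma std_prim (p : ℕ) [hp : Fact p.Prime] : IsPrimitiveRoot (ZMod.stdAddChar (1 : ZMod p)) p := by
  have h : ZMod.stdAddChar ((1 : ℕ) : ZMod p) = Complex.exp (2 * Real.pi * Complex.I * (1 : ℕ) / p) := by
    have := ZMod.stdAddChar_coe (N := p) (1 : ℤ)
    simpa using this
  have h1 : ZMod.stdAddChar (1 : ZMod p) = Complex.exp (2 * Real.pi * Complex.I / p) := by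
    simpa using h
  rw [h1]
  exact Complex.isPrimitiveRoot_exp p hp.out.ne_zero

lemma std_pow (p : ℕ) [hp : Fact p.Prime] (c : ZMod p) :
    ZMod.stdAddChar c = (ZMod.stdAddChar (1 : ZMod p)) ^ c.val := by
  rw [← AddChar.map_nsmul_eq_pow]
  congr 1
  simp

/-- a sum of `m` complex `p`-th roots of unity with `0 < m < p` is nonzero -/
lemma sum_ne_zero (p : ℕ) [hp : Fact p.Prime] {ι : Type} [Fintype ι] (hpos : 0 < Fintype.card ι)
    (hlt : Fintype.card ι < p) (c : ι → ZMod p) : ∑ i, ZMod.stdAddChar (c i) ≠ 0 := by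
  intro h
  set ζ := ZMod.stdAddChar (1 : ZMod p) with hζ
  have hprim := std_prim p
  let Q : Polynomial ℤ := ∑ i, Polynomial.X ^ (c i).val
  have h1 : Polynomial.aeval ζ Q = 0 := by
    simp only [Q, map_sum, map_pow, Polynomial.aeval_X]
    rw [← h]
    refine Finset.sum_congr rfl fun i _ => ?_
    rw [std_pow p (c i)]
  have h2 : Polynomial.cyclotomic p ℤ ∣ Q := by
    rw [Polynomial.cyclotomic_eq_minpoly hprim hp.out.pos]
    exact minpoly.isIntegrallyClosed_dvd (hprim.isIntegral hp.out.pos) h1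
  obtain ⟨R, hR⟩ := h2
  have h3 := congrArg (Polynomial.eval 1) hR
  rw [Polynomial.eval_mul, Polynomial.eval_one_cyclotomic_prime] at h3
  have h4 : Polynomial.eval 1 Q = (Fintype.card ι : ℤ) := by
    simp [Q, Polynomial.eval_finset_sum]
  rw [h4] at h3
  have h5 : (p : ℤ) ∣ (Fintype.card ι : ℤ) := ⟨_, h3⟩
  have h6 : p ∣ Fintype.card ι := by exact_mod_cast h5
  exact absurd (Nat.le_of_dvd hpos h6) (not_le.mpr hlt)

end Pool.Agent.X256.ZP
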