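import Pool.Agent.X256.SC.AG
import Pool.Agent.X256.ZP.Roots

/-!
# Irreducible characters of `C_p ≀ K` do not vanish on the base group when `|K| < p`
-/

open scoped BigOperators Classical
open Representation Pool.Agent.Helper884.IC Pool.Agent.X256.CT Pool.Agent.X256.SC

noncomputable section

namespace Pool.Agent.X256.ZP

/-- the regular wreath product `C_p ≀ K` -/
abbrev W (p : ℕ) (K : Type) [Group K] : Type := RegularWreathProduct (Multiplicative (ZMod p)) K

variable {p : ℕ} [hp : Fact p.Prime] {K : Type} [Group K] [Fintype K]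

instance : Fintype (W p K) := Fintype.ofFinite _

/-- elements of the base group -/
def el (g : K → ZMod p) : W p K := ⟨fun t => Multiplicative.ofAdd (g t), 1⟩

/-- the translation action on functions -/
def act (z : K) : (K → ZMod p) →ₗ[ZMod p] (K → ZMod p) where
  toFun g := fun t => g (z⁻¹ * t)
  map_add' _ _ := rfl
  map_smul' _ _ := rfl

lemma act_apply (z : K) (g : K → ZMod p) (t : K) : act z g t = g (z⁻¹ * t) := rfl

lemma act_one (g : K → ZMod p) : act (1 : K) g = g := by
  funext t
  simp [act_apply]

lemma act_mul (z z' : K) (g : K → ZMod p) : act z (act z' g) = act (z * z') g := by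
  funext t
  simp [act_apply, mul_assoc]

lemma el_inj {g h : K → ZMod p} (H : el g = el h) : g = h := by
  funext t
  have := congrArg (fun w : W p K => Multiplicative.toAdd (w.left t)) H
  simpa [el] using this

lemma el_add (g h : K → ZMod p) : el (g + h) = el g * el h := by
  apply RegularWreathProduct.ext
  · funext t
    simp [el]
  · simp [el]

lemma el_neg (g : K → ZMod p) : el (-g) = (el g)⁻¹ := by
  apply RegularWreathProduct.ext
  · funext t
    simp [el]
  · simp [el]

lemma el_zero : el (0 : K → ZMod p) = 1 := by
  apply RegularWreathProduct.ext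
  · funext t
    simp [el]
  · simp [el]

lemma el_conj (w : W p K) (g : K → ZMod p) : w * el g * w⁻¹ = el (act w.right g) := by
  apply RegularWreathProduct.ext
  · funext t
    simp only [el, RegularWreathProduct.mul_left, RegularWreathProduct.inv_left,
      RegularWreathProduct.mul_right, Pi.mul_apply, Pi.inv_apply, mul_one, act_apply]
    rw [mul_inv_cancel_left, mul_comm (w.left t), mul_assoc, mul_inv_cancel, mul_one]
  · simp [el]

lemma eq_el_of_right {w : W p K} (h : w.right = 1) : ∃ g, w = el g := by
  refine ⟨fun t => Multiplicative.toAdd (w.left t), ?_⟩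
  apply RegularWreathProduct.ext
  · funext t
    simp [el]
  · simp [el, h]

lemma el_right (g : K → ZMod p) : (el g).right = 1 := rfl

/-- sums over the wreath product of functions supported on the base -/
lemma sum_base (H : W p K → ℂ) (h : ∀ w, w.right ≠ 1 → H w = 0) :
    ∑ w : W p K, H w = ∑ g : K → ZMod p, H (el g) := by
  have h1 : ∑ g : K → ZMod p, H (el g) = ∑ w ∈ Finset.univ.image (el : (K → ZMod p) → W p K), H w := by
    rw [Finset.sum_image (fun a _ b _ h => el_inj h)]
  rw [h1]
  symm
  apply Finset.sum_subset (Finset.subset_univ _)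
  intro w _ hw
  apply h
  intro hr
  obtain ⟨g, rfl⟩ := eq_el_of_right hr
  exact hw (Finset.mem_image_of_mem _ (Finset.mem_univ g))

/-- the induced-type class function attached to a functional -/
def phi (k : Module.Dual (ZMod p) (K → ZMod p)) (g : K → ZMod p) : ℂ :=
  ∑ z : K, ZMod.stdAddChar (k (act z g))

/-- extension by zero -/
def phiW (k : Module.Dual (ZMod p) (K → ZMod p)) (w : W p K) : ℂ :=
  if w.right = 1 then phi k (fun t => Multiplicative.toAdd (w.left t)) else 0

lemma phiW_el (k : Module.Dual (ZMod p) (K → ZMod p)) (g : K → ZMod p) :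
    phiW k (el g) = phi k g := by
  unfold phiW
  rw [if_pos (el_right g)]
  rfl

lemma phi_act (k : Module.Dual (ZMod p) (K → ZMod p)) (z : K) (g : K → ZMod p) :
    phi k (act z g) = phi k g := by
  unfold phi
  refine Fintype.sum_equiv (Equiv.mulRight z) _ _ fun x => ?_
  rw [act_mul]
  rfl

lemma phiW_class (k : Module.Dual (ZMod p) (K → ZMod p)) : IsClass (phiW k) := by
  intro w y
  by_cases h : w.right = 1
  · obtain ⟨g, rfl⟩ := eq_el_of_right h
    rw [el_conj, phiW_el, phiW_el, phi_act]
  · unfold phiW
    rw [if_neg h, if_neg]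
    intro h'
    apply h
    have h2 : y.right * w.right * y.right⁻¹ = 1 := by simpa using h'
    have h3 : y.right * w.right = y.right := by
      rw [mul_inv_eq_one] at h2
      exact h2
    simpa using h3

/-- Fourier coefficients of the restriction to the base -/
def fc (k : Module.Dual (ZMod p) (K → ZMod p)) (psi : W p K → ℂ) : ℂ :=
  ∑ g : K → ZMod p, psi (el g) * ZMod.stdAddChar (-(k g))

lemma phi_ne_zero (hK : Fintype.card K < p) (k : Module.Dual (ZMod p) (K → ZMod p))
    (g : K → ZMod p) : phi k g ≠ 0 := by
  unfold phi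
  exact sum_ne_zero p Fintype.card_pos hK _

lemma main_identity (k : Module.Dual (ZMod p) (K → ZMod p)) {psi : W p K → ℂ}
    (hpsi : IsIrrChar psi) (g : K → ZMod p) :
    fc k psi * phi k g * psi 1 = (Nat.card (W p K) : ℂ) * B (phiW k) psi * psi (el g) := by
  rw [← conv_irr (phiW k) (phiW_class k) hpsi (el g)]
  congr 1
  rw [sum_base]
  · simp only [phiW_el]
    have h1 : ∀ h : K → ZMod p, psi ((el h)⁻¹ * el g) = psi (el (g - h)) := by
      intro h
      rw [← el_neg, ← el_add]
      congr 2
      abel
    simp only [h1]
    unfold phi fc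
    simp only [Finset.sum_mul]
    rw [Finset.sum_comm, Finset.sum_congr rfl fun _ _ => (Finset.mul_sum _ _ _), Finset.sum_comm]
    refine Finset.sum_congr rfl fun z _ => ?_
    -- substitute
    have e : ∀ (z : K) (x : K → ZMod p), psi (el (act z x)) = psi (el x) := by
      intro z x
      have := hpsi.isClass (el x) (RegularWreathProduct.inl z)
      rw [el_conj] at this
      exact this
    let E : (K → ZMod p) ≃ (K → ZMod p) := {
      toFun := fun x => g - act z⁻¹ x
      invFun := fun y => act z (g - y)
      left_inv := by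
        intro x
        simp only [sub_sub_cancel]
        rw [act_mul]
        simp [act_one]
      right_inv := by
        intro y
        simp only [act_mul]
        simp [act_one] }
    refine Fintype.sum_equiv E _ _ fun x => ?_
    change psi (el x) * ZMod.stdAddChar (-(k x)) * ZMod.stdAddChar (k (act z g)) =
      ZMod.stdAddChar (k (act z (g - act z⁻¹ x))) * psi (el (g - (g - act z⁻¹ x)))
    rw [sub_sub_cancel, e, map_sub, act_mul, mul_inv_cancel, act_one, map_sub, sub_eq_add_neg,
      AddChar.map_add_eq_mul]
    ring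
  · intro w hw
    unfold phiW
    rw [if_neg hw, zero_mul]

lemma std_ne_one : (ZMod.stdAddChar (N := p)) ≠ 1 := by
  intro h
  have h1 := DFunLike.congr_fun h (1 : ZMod p)
  rw [AddChar.one_apply] at h1
  have h2 := std_prim p
  rw [h1] at h2
  have := h2.eq_orderOf
  rw [orderOf_one] at this
  exact hp.out.one_lt.ne' this

lemma exists_fc_ne {psi : W p K → ℂ} (hpsi : IsIrrChar psi) :
    ∃ k : Module.Dual (ZMod p) (K → ZMod p), fc k psi ≠ 0 := by
  by_contra hn
  push Not at hn
  apply Pool.Agent.Y63.AWC.one_ne hpsi
  have h1 : ∑ k : Module.Dual (ZMod p) (K → ZMod p), fc k psi =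
      (Fintype.card (Module.Dual (ZMod p) (K → ZMod p)) : ℂ) * psi 1 := by
    unfold fc
    rw [Finset.sum_comm]
    have h2 : ∀ g : K → ZMod p, ∑ k : Module.Dual (ZMod p) (K → ZMod p),
        psi (el g) * ZMod.stdAddChar (-(k g)) =
        if g = 0 then (Fintype.card (Module.Dual (ZMod p) (K → ZMod p)) : ℂ) * psi (el g) else 0 := by
      intro g
      rw [← Finset.mul_sum]
      have h3 : ∀ k : Module.Dual (ZMod p) (K → ZMod p),
        ZMod.stdAddChar (-(k g)) = ZMod.stdAddChar (k (-g)) := fun k => by rw [map_neg k g]
      rw [Finset.sum_congr rfl fun k _ => h3 k, AG.sum_char_D _ std_ne_one]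
      by_cases hg : g = 0
      · subst hg
        simp [mul_comm]
      · rw [if_neg hg, if_neg (by simpa using hg), mul_zero]
    rw [Finset.sum_congr rfl fun g _ => h2 g]
    simp [el_zero]
  rw [Finset.sum_eq_zero fun k _ => hn k] at h1
  rcases mul_eq_zero.mp h1.symm with h3 | h3
  · exfalso
    have : Fintype.card (Module.Dual (ZMod p) (K → ZMod p)) ≠ 0 := Fintype.card_ne_zero
    exact this (by exact_mod_cast h3)
  · exact h3

/-- irreducible characters do not vanish on the base group -/
theorem ne_zero_base (hK : Fintype.card K < p) {psi : W p K → ℂ} (hpsi : IsIrrChar psi)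
    (g : K → ZMod p) : psi (el g) ≠ 0 := by
  obtain ⟨k, hk⟩ := exists_fc_ne hpsi
  intro h
  have h1 := main_identity k hpsi g
  rw [h, mul_zero] at h1
  exact mul_ne_zero (mul_ne_zero hk (phi_ne_zero hK k g)) (Pool.Agent.Y63.AWC.one_ne hpsi) h1

end Pool.Agent.X256.ZP
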